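import Pool.Agent.H72.UZ.TarZ

/-!
# Board uz_modules: QC (the new base system: bounds, richness, new labels)
-/

set_option linter.unusedVariables false

open Ordinal Order Set
open scoped ZFSet

namespace SE.UZ

open SF

theorem pf_QC (hQ1 : T_Q1) (hPAS : T_PAS) (hADD : T_ADD) (hW1 : T_W1) : T_QC := by
  intro D κ b hA hok c hc
  have hcl : c.l = b.l + 2 := by rw [hc]; rfl
  obtain ⟨hN, hOb, hU, hLe, hRi, hT, hSc⟩ := hQ1 D κ b hA hok c hc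
  obtain ⟨hrfl, htrn, hsub, hsubu, hdec⟩ := hW1 D κ b hA hok
  refine ⟨?_, ?_, ?_⟩
  · intro I F hag Z hZ
    have hp : b.Pas D κ I F Z κ ∅ ∅ := by
      refine ⟨hag.h, hag.n, hZ, fun v hv => (hOb _).1 (hag.o v hv), ?_, ?_⟩
      · intro v hv v' hv'
        obtain ⟨C, h1, h2, h3⟩ := hag.a v hv v' hv'
        have t1 := (hLe _ _).1 h1
        have t2 := (hLe _ _).1 h2
        refine ⟨C, t1, t2, ?_⟩
        rw [← hU C t1.t, ← hU _ t1.t', ← hU _ t2.t']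
        exact h3
      · intro h
        exact absurd h (ZFSet.mem_irrefl κ)
    obtain ⟨T, hT1, hT2, _, hT4⟩ := hPAS D κ b hA hok I F Z κ ∅ ∅ hp
    refine ⟨T, (hOb T).2 hT1.t, fun v hv => (hRi _ _).2 ⟨hT2 v hv, hT1⟩, ?_⟩
    intro k hk hnk
    rw [hU T hT1.t] at hk
    have h5 := hT4 k hk (fun v hv => by rw [← hU _ (hT2 v hv).t]; exact hnk v hv)
      (fun h => ZFSet.mem_irrefl κ h.1)
    refine ⟨?_, h5.2⟩
    obtain ⟨e, he, hk⟩ := h5.1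
    exact ⟨e, by rw [hcl]; omega, hk⟩
  · intro C B h
    obtain ⟨h1, h2⟩ := (hRi C B).1 h
    exact ⟨(hLe _ _).2 h1, fun C0 h3 => (hRi _ _).2 ⟨htrn _ _ _ ((hLe _ _).1 h3) h1, h2⟩⟩
  · intro B hB Y hY1 hY2 e he τ hτ u hu Z hZ
    have hB' := (hOb B).1 hB
    rw [hcl] at he ⊢
    rw [hU B hB'] at hY2 ⊢
    obtain ⟨T', i, h1, h2, h3, h4, h5, h6, h7, h8, h9, h10⟩ :=
      hADD D κ b hA hok B hB' Y hY1 hY2 e he τ hτ u hu Z hZ
    refine ⟨T', i, (hLe _ _).2 h1, ?_⟩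
    rw [hU T' h1.t']
    exact ⟨h2, h3, h4, h5, h6, h7, h8, h9, h10⟩

end SE.UZ
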